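import Pool.Agent.H12.HQ.Top

/-!
For all `k` of `(K, K+X]` with at most `X (log X)^(-B)` exceptions the number of `m <= M` with `m^3+k` prime is the
expected one, with relative error `(log X)^(-B)`, for `X^theta <= M <= X^(1/2) (log X)^(-C1)`, `theta > 1/18` fixed,
and every `K <= M^3`.
-/

namespace Pool.Agent.Results.MP_4d57ea_nt.AlmostAllNatural

open Finset

/-- number of residues `m` modulo `p` with `p ∣ m^3+k` -/
def nu (p k : ℕ) : ℕ := ((range p).filter fun m => p ∣ m ^ 3 + k).card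

/-- the product of Hardy and Littlewood for `m^3+k` over the primes up to `y` -/
noncomputable def S (y k : ℕ) : ℝ :=
  ∏ p ∈ (Icc 1 y).filter Nat.Prime, (1 - (nu p k : ℝ) / p) / (1 - 1 / (p : ℝ))

/-- number of `m ≤ M`, `m ≥ 1`, with `m^3+k` prime -/
def primeCount (M k : ℕ) : ℕ := ((Icc 1 M).filter (fun m => (m ^ 3 + k).Prime)).card

/-- the expected number: `S y k`, `y = (log X)^C`, times the sum of `1 / log (m^3+k)` over `1 ≤ m ≤ M` -/
noncomputable def expected (X M k : ℕ) (C : ℝ) : ℝ :=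
  S ⌊(Real.log X) ^ C⌋₊ k * ∑ m ∈ Icc 1 M, 1 / Real.log ((m ^ 3 + k : ℕ) : ℝ)

theorem result (θ B : ℝ) (hθ : 1 / 18 < θ) (hB : 0 < B) :
    ∃ C0 C1 : ℝ, 0 < C0 ∧ 0 < C1 ∧ ∀ C : ℝ, C0 ≤ C → ∃ X0 : ℕ, ∀ X : ℕ, X0 ≤ X → ∀ M K : ℕ,
    (X : ℝ) ^ θ ≤ M → (M : ℝ) ≤ (X : ℝ) ^ ((1 : ℝ) / 2) * (Real.log X) ^ (-C1) → K ≤ M ^ 3 →
    ((((Ioc K (K + X)).filter (fun k => (Real.log X) ^ (-B) * expected X M k C <
      |(primeCount M k : ℝ) - expected X M k C|)).card : ℕ) : ℝ) ≤ X * (Real.log X) ^ (-B) :=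
  H12.HQ.finaln θ B hθ hB

end Pool.Agent.Results.MP_4d57ea_nt.AlmostAllNatural
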