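import Mathlib
import Pool.Agent.H49.PC.Main
import Pool.Agent.H49.PC.Old
import Pool.Agent.H26.PT.NegC

/-!
Both parities of the number of prime factors of m^3 - L (m natural) and m^3 + K (m an integer): for all L > 0
in one of the two cube classes of k and k^2 (in the class of 2 if k is in the class of an odd prime or of its
square and neither works), for all K in one of the two cube classes, and for one K (and all K e^3) in every class.
-/

namespace Pool.Agent.Results.MP_4d57ea_nt.CubicParity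

/-- number of prime factors of |x|, counted with multiplicity -/
def Omega (x : ℤ) : ℕ := ArithmeticFunction.cardFactors x.natAbs

/-- k and k' are in the same cube class: k'/k is the cube of a rational number different from 0 -/
def SameClass (k k' : ℤ) : Prop := ∃ a b : ℤ, a ≠ 0 ∧ b ≠ 0 ∧ a ^ 3 * k = b ^ 3 * k'

/-- (1) For every k which is not a cube: for all L > 0 in the cube class of k, or for all L > 0 in the cube class
of k^2, both parities of Omega(m^3 - L), m natural, occur infinitely often; only if k is in the class of p or p^2,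
p an odd prime, a third possibility is left: for all L > 0 in the cube class of 2. (2) For every k which is not a
cube: for all k' in the cube class of k, or for all k' in the cube class of k^2, both parities of Omega(m^3 + k'),
m an integer, occur infinitely often. (3) for every k /= 0 there is n /= 0 such that for all
e >= 1 both parities of Omega(m^3 + k (e n)^3), m natural, occur infinitely often; (4) k = 2, n = 12 N: each
parity occurs for at least c X^(1/6) integers m with |m| <= X. -/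
theorem result :
    (∀ k : ℤ, (∀ a : ℤ, k ≠ a ^ 3) →
      (∀ L : ℤ, 0 < L → SameClass k L →
        {m : ℕ | Even (Omega ((m : ℤ) ^ 3 - L))}.Infinite ∧
        {m : ℕ | Odd (Omega ((m : ℤ) ^ 3 - L))}.Infinite) ∨
      (∀ L : ℤ, 0 < L → SameClass (k ^ 2) L →
        {m : ℕ | Even (Omega ((m : ℤ) ^ 3 - L))}.Infinite ∧
        {m : ℕ | Odd (Omega ((m : ℤ) ^ 3 - L))}.Infinite) ∨
      ((∃ p : ℕ, p.Prime ∧ p ≠ 2 ∧ (SameClass p k ∨ SameClass (p ^ 2) k)) ∧
        ∀ L : ℤ, 0 < L → SameClass 2 L →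
          {m : ℕ | Even (Omega ((m : ℤ) ^ 3 - L))}.Infinite ∧
          {m : ℕ | Odd (Omega ((m : ℤ) ^ 3 - L))}.Infinite)) ∧
    (∀ k : ℤ, (∀ a : ℤ, k ≠ a ^ 3) →
      (∀ k' : ℤ, SameClass k k' →
        {m : ℤ | Even (Omega (m ^ 3 + k'))}.Infinite ∧ {m : ℤ | Odd (Omega (m ^ 3 + k'))}.Infinite) ∨
      (∀ k' : ℤ, SameClass (k ^ 2) k' →
        {m : ℤ | Even (Omega (m ^ 3 + k'))}.Infinite ∧ {m : ℤ | Odd (Omega (m ^ 3 + k'))}.Infinite)) ∧
    (∀ k : ℤ, k ≠ 0 → ∃ n : ℤ, n ≠ 0 ∧ ∀ e : ℕ, 1 ≤ e →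
      {m : ℕ | Even (Omega ((m : ℤ) ^ 3 + k * (e * n) ^ 3))}.Infinite ∧
      {m : ℕ | Odd (Omega ((m : ℤ) ^ 3 + k * (e * n) ^ 3))}.Infinite) ∧
    (∀ N : ℤ, N ≠ 0 → ∃ c : ℝ, 0 < c ∧ ∃ X0 : ℕ, ∀ X : ℕ, X0 ≤ X →
      c * (X : ℝ) ^ ((1 : ℝ) / 6) ≤
        ({m : ℤ | |m| ≤ X ∧ Even (Omega (m ^ 3 + 2 * (12 * N) ^ 3))}.ncard : ℝ) ∧
      c * (X : ℝ) ^ ((1 : ℝ) / 6) ≤
        ({m : ℤ | |m| ≤ X ∧ Odd (Omega (m ^ 3 + 2 * (12 * N) ^ 3))}.ncard : ℝ)) := by
  have heven : ∀ x : ℤ, Pool.Agent.H12.PAR.lam x = 1 → Even (Omega x) := by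
    intro x e
    unfold Pool.Agent.H12.PAR.lam at e
    unfold Omega
    rcases Nat.even_or_odd (ArithmeticFunction.cardFactors x.natAbs) with h | h
    · exact h
    · rw [h.neg_one_pow] at e
      norm_num at e
  have hodd : ∀ x : ℤ, Pool.Agent.H12.PAR.lam x = -1 → Odd (Omega x) := by
    intro x e
    unfold Pool.Agent.H12.PAR.lam at e
    unfold Omega
    rcases Nat.even_or_odd (ArithmeticFunction.cardFactors x.natAbs) with h | h
    · rw [h.neg_one_pow] at e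
      norm_num at e
    · exact h
  have fin : ∀ (X : ℕ) (P : ℤ → Prop), {m : ℤ | |m| ≤ X ∧ P m}.Finite := by
    intro X P
    refine (Set.finite_Icc (-(X : ℤ)) X).subset ?_
    intro m hm
    exact Set.mem_Icc.2 (abs_le.1 hm.1)
  have hsE : ∀ (X : ℕ) (K : ℤ),
      {m : ℤ | |m| ≤ X ∧ m ^ 3 + K ≠ 0 ∧ Pool.Agent.H12.PAR.lam (m ^ 3 + K) = 1} ⊆
        {m : ℤ | |m| ≤ X ∧ Even (Omega (m ^ 3 + K))} := by
    rintro X K m ⟨h1, _, h3⟩
    exact ⟨h1, heven _ h3⟩
  have hsO : ∀ (X : ℕ) (K : ℤ),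
      {m : ℤ | |m| ≤ X ∧ m ^ 3 + K ≠ 0 ∧ Pool.Agent.H12.PAR.lam (m ^ 3 + K) = -1} ⊆
        {m : ℤ | |m| ≤ X ∧ Odd (Omega (m ^ 3 + K))} := by
    rintro X K m ⟨h1, _, h3⟩
    exact ⟨h1, hodd _ h3⟩
  have hZ : ∀ K : ℤ, Pool.Agent.H26.PT.GoodZ K →
      {m : ℤ | Even (Omega (m ^ 3 + K))}.Infinite ∧ {m : ℤ | Odd (Omega (m ^ 3 + K))}.Infinite :=
    fun K h => ⟨h.1.mono fun m hm => heven _ hm, h.2.mono fun m hm => hodd _ hm⟩
  have hN : ∀ L : ℤ, Pool.Agent.H26.PT.GoodN (-L) →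
      {m : ℕ | Even (Omega ((m : ℤ) ^ 3 - L))}.Infinite ∧
        {m : ℕ | Odd (Omega ((m : ℤ) ^ 3 - L))}.Infinite := by
    intro L h
    refine ⟨h.1.mono fun m hm => ?_, h.2.mono fun m hm => ?_⟩
    · have hm' : Pool.Agent.H12.PAR.lam ((m : ℤ) ^ 3 + -L) = 1 := hm
      rw [← sub_eq_add_neg] at hm'
      exact heven _ hm'
    · have hm' : Pool.Agent.H12.PAR.lam ((m : ℤ) ^ 3 + -L) = -1 := hm
      rw [← sub_eq_add_neg] at hm'
      exact hodd _ hm'
  refine ⟨?_, ?_, ?_, ?_⟩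
  · intro k hk
    rcases Pool.Agent.H26.PT.neg_classes hk with h | h | ⟨h0, h⟩
    · exact Or.inl fun L hL hC => hN L (h L hL hC)
    · exact Or.inr (Or.inl fun L hL hC => hN L (h L hL hC))
    · exact Or.inr (Or.inr ⟨h0, fun L hL hC => hN L (h L hL hC)⟩)
  · intro k hk
    rcases Pool.Agent.H26.PT.classes hk with h | h
    · exact Or.inl fun k' hk' => hZ k' (h k' hk')
    · exact Or.inr fun k' hk' => hZ k' (h k' hk')
  · intro k hk
    obtain ⟨n, hn, h⟩ := Pool.Agent.H49.PC.main k hk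
    refine ⟨n, hn, fun e he => ⟨(h e he 1 (Or.inl rfl)).mono ?_, (h e he (-1) (Or.inr rfl)).mono ?_⟩⟩
    · rintro m ⟨_, hm⟩
      rw [mul_comm n (e : ℤ)] at hm
      exact heven _ hm
    · rintro m ⟨_, hm⟩
      rw [mul_comm n (e : ℤ)] at hm
      exact hodd _ hm
  · intro N hN
    obtain ⟨c1, hc1, X1, h1⟩ := Pool.Agent.H49.PC.both_parities (N := N) (δ := 1) hN (Or.inl rfl)
    obtain ⟨c2, hc2, X2, h2⟩ := Pool.Agent.H49.PC.both_parities (N := N) (δ := -1) hN (Or.inr rfl)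
    have eK : (2 : ℤ) * (12 * N) ^ 3 = 3456 * N ^ 3 := by ring
    rw [eK]
    refine ⟨min c1 c2, lt_min hc1 hc2, max X1 X2, fun X hX => ⟨?_, ?_⟩⟩
    · calc min c1 c2 * (X : ℝ) ^ ((1 : ℝ) / 6) ≤ c1 * (X : ℝ) ^ ((1 : ℝ) / 6) :=
            mul_le_mul_of_nonneg_right (min_le_left _ _) (by positivity)
        _ ≤ _ := h1 X (le_trans (le_max_left _ _) hX)
        _ ≤ _ := by
            unfold Pool.Agent.H49.PC.cnt
            exact Nat.cast_le.2 (Set.ncard_le_ncard (hsE X (3456 * N ^ 3)) (fin X _))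
    · calc min c1 c2 * (X : ℝ) ^ ((1 : ℝ) / 6) ≤ c2 * (X : ℝ) ^ ((1 : ℝ) / 6) :=
            mul_le_mul_of_nonneg_right (min_le_right _ _) (by positivity)
        _ ≤ _ := h2 X (le_trans (le_max_right _ _) hX)
        _ ≤ _ := by
            unfold Pool.Agent.H49.PC.cnt
            exact Nat.cast_le.2 (Set.ncard_le_ncard (hsO X (3456 * N ^ 3)) (fin X _))

end Pool.Agent.Results.MP_4d57ea_nt.CubicParity
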