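import Pool.Agent.H96.DR.Fin

/-!
For every integer `k` which is not a cube and every `0 < δ ≤ 1/500`, for all large `x` at least `(2/3 - 80 δ) x` of the
integers `1 ≤ m ≤ x` have a prime factor of `m^3+k` larger than `x^(1+δ)`. For `δ = 1/500` this is more than half of all `m`.
-/

namespace Pool.Agent.Results.MP_4d57ea_nt.LargestPrimeFactor

open Finset

open Classical in
theorem result (k : ℤ) (hk : ∀ t : ℤ, t ^ 3 ≠ k) (δ : ℝ) (hδ : 0 < δ) (hδ' : δ ≤ 1 / 500) :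
    ∃ x₀ : ℕ, ∀ x : ℕ, x₀ ≤ x →
    (2 / 3 - 80 * δ) * x ≤ (((Icc 1 x).filter fun m : ℕ => ∃ p : ℕ, p.Prime ∧ (x : ℝ) ^ (1 + δ) < p ∧
      (p : ℤ) ∣ (m : ℤ) ^ 3 + k).card : ℝ) :=
  H96.DR.more_than_half k hk δ hδ hδ'

end Pool.Agent.Results.MP_4d57ea_nt.LargestPrimeFactor
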